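import Pool.Agent.H35.NE.NUD

/-! Module NUN of the board `ne_modules` (MP_64fb07_lc): the bound for nondeterministic machines. -/

set_option autoImplicit false

namespace Pool.Agent.H35.NE

open Finset Filter Pool.Agent.H6.NB Pool.Agent.H70.OQ Pool.Agent.H70.NC Pool.Agent.H70.NE

theorem cube_le (n : ℕ) (hn : 100 ≤ n) : 100 * (n + 1) ^ 3 ≤ 2 ^ (2 * n) := by
  induction n, hn using Nat.le_induction with
  | base => norm_num
  | succ n hn ih =>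
    have h1 : 2 ^ (2 * (n + 1)) = 4 * 2 ^ (2 * n) := by
      rw [mul_add, pow_add]
      ring
    rw [h1]
    have h2 : (n + 1 + 1) ^ 3 ≤ 4 * (n + 1) ^ 3 := by
      have h3 : n + 1 + 1 ≤ 2 * (n + 1) := by omega
      have h4 : 100 ≤ n := hn
      nlinarith [sq_nonneg (n + 1), mul_le_mul h4 h4 (by omega) (by omega), pow_pos (show 0 < n by omega) 3]
    calc 100 * (n + 1 + 1) ^ 3 ≤ 100 * (4 * (n + 1) ^ 3) := Nat.mul_le_mul_left _ h2
      _ = 4 * (100 * (n + 1) ^ 3) := by ring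
      _ ≤ 4 * 2 ^ (2 * n) := Nat.mul_le_mul_left _ ih

theorem pf_nun (h : T_ERD) : T_NUN := by
  intro k
  filter_upwards [h k, eventually_ge_atTop 100] with n hE hn l T B η γ hl hT hη0 hη hγ0 hγ hB
  obtain ⟨hTp, hErr⟩ := hE l T hl hT
  refine ⟨hTp, ?_⟩
  have h2n : (0 : ℝ) < 2 ^ n := by positivity
  set N3 : ℝ := 100 * ((n : ℝ) + 1) ^ 3 with hN3
  have hN0 : 0 < N3 := by positivity
  have hN1 : 1 ≤ N3 := by
    have h1 : (1 : ℝ) ≤ ((n : ℝ) + 1) ^ 3 := one_le_pow₀ (by linarith [Nat.cast_nonneg (α := ℝ) n])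
    linarith
  have hNle : N3 ≤ 2 ^ (2 * n) := by
    have := cube_le n hn
    rw [hN3]
    exact_mod_cast this
  have hγ2 : 0 < γ ^ 2 := by positivity
  have hγ1 : γ ^ 2 ≤ 1 := pow_le_one₀ hγ0.le hγ
  have hηγ : 0 < η * γ ^ 2 := by positivity
  have hηγ1 : η * γ ^ 2 ≤ 1 := by nlinarith
  have hBn : B ≤ n := by
    have h1 : (2 : ℝ) ^ B ≤ 2 ^ n := by
      have h2 : (2 : ℝ) ^ B ≤ N3 * 2 ^ B := le_mul_of_one_le_left (by positivity) hN1
      have h3 : η * γ ^ 2 * 2 ^ n ≤ 1 * 2 ^ n := mul_le_mul_of_nonneg_right hηγ1 h2n.le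
      linarith
    have h4 : 2 ^ B ≤ 2 ^ n := by exact_mod_cast h1
    exact (Nat.pow_le_pow_iff_right (by norm_num : 1 < 2)).1 h4
  have hX : (1 : ℝ) / 2 ^ (2 * n) ≤ 1 / N3 := one_div_le_one_div_of_le hN0 hNle
  -- first term
  have t1 : (2 : ℝ) ^ (B + 1) * (2 ^ n * 2 ^ (T + 1) * (2 ^ (T + 1) *
      errD (Rw n l) (Yq l) (2 ^ (T + 1)) (pw l) (2 ^ (l - n)) (pq l) k)) ≤ 1 / N3 := by
    refine le_trans ?_ hX
    have h1 : (2 : ℝ) ^ (T + 1) *
        errD (Rw n l) (Yq l) (2 ^ (T + 1)) (pw l) (2 ^ (l - n)) (pq l) k ≤ 1 / 2 ^ 2 ^ (l / 8) := by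
      calc (2 : ℝ) ^ (T + 1) * errD (Rw n l) (Yq l) (2 ^ (T + 1)) (pw l) (2 ^ (l - n)) (pq l) k
          ≤ 2 ^ (T + 1) * (1 / 2 ^ (T + 1) / 2 ^ 2 ^ (l / 8)) :=
            mul_le_mul_of_nonneg_left hErr (by positivity)
        _ = 1 / 2 ^ 2 ^ (l / 8) := by
            field_simp
    have hT1 := time_lt hT
    have ht := num_lin (l / 8 - 2) (by omega)
    have e1 : 2 ^ (l / 8) = 2 * (2 * 2 ^ (l / 8 - 2)) := by
      rw [← mul_assoc, ← pow_two, ← pow_add]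
      congr 1
      omega
    have e2 : 2 ^ (l / 16 + 1) ≤ 2 * 2 ^ (l / 8 - 2) := by
      rw [← pow_succ']
      exact Nat.pow_le_pow_right (by norm_num) (by omega)
    have hExp : B + 1 + (n + (T + 1)) + 2 * n ≤ 2 ^ (l / 8) := by omega
    calc (2 : ℝ) ^ (B + 1) * (2 ^ n * 2 ^ (T + 1) * (2 ^ (T + 1) *
          errD (Rw n l) (Yq l) (2 ^ (T + 1)) (pw l) (2 ^ (l - n)) (pq l) k))
        ≤ 2 ^ (B + 1) * (2 ^ n * 2 ^ (T + 1) * (1 / 2 ^ 2 ^ (l / 8))) := by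
          refine mul_le_mul_of_nonneg_left (mul_le_mul_of_nonneg_left h1 ?_) ?_ <;> positivity
      _ = 2 ^ (B + 1 + (n + (T + 1))) / 2 ^ 2 ^ (l / 8) := by
          rw [pow_add 2 (B + 1) (n + (T + 1)), pow_add 2 n (T + 1)]
          ring
      _ ≤ 1 / 2 ^ (2 * n) := by
          rw [div_le_div_iff₀ (by positivity) (by positivity), ← pow_add, one_mul]
          exact pow_le_pow_right₀ (by norm_num) hExp
  -- second term
  have t2 : (2 : ℝ) ^ (B + 1) * (2 ^ n * 2 ^ (l / 2) * (1 - pq l) ^ 2 ^ (l / 2)) ≤ 1 / N3 := by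
    refine le_trans ?_ hX
    have h1 := (pq_pow (l := l) (by omega)).2
    have hl4 := num_lin (l / 4 - 1) (by omega)
    have h7 : 2 ^ (l / 4) = 2 * 2 ^ (l / 4 - 1) := by
      rw [← pow_succ']
      congr 1
      omega
    have h9 : B + 1 + n + l / 2 + 2 * n ≤ 2 ^ (l / 4) := by omega
    calc (2 : ℝ) ^ (B + 1) * (2 ^ n * 2 ^ (l / 2) * (1 - pq l) ^ 2 ^ (l / 2))
        ≤ 2 ^ (B + 1) * (2 ^ n * 2 ^ (l / 2) * (1 / 2 ^ (2 ^ (l / 4)))) := by
          refine mul_le_mul_of_nonneg_left (mul_le_mul_of_nonneg_left h1 ?_) ?_ <;> positivity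
      _ = 2 ^ (B + 1 + n + l / 2) / 2 ^ (2 ^ (l / 4)) := by
          rw [pow_add 2 (B + 1 + n) (l / 2), pow_add 2 (B + 1) n]
          ring
      _ ≤ 1 / 2 ^ (2 * n) := by
          rw [div_le_div_iff₀ (by positivity) (by positivity), ← pow_add, one_mul]
          exact pow_le_pow_right₀ (by norm_num) h9
  -- third term
  have t3 : (2 : ℝ) ^ (B + 1) * (2 / (η * γ ^ 2 * 2 ^ n)) ≤ 4 * (1 / N3) := by
    have h1 : (2 : ℝ) ^ B / (η * γ ^ 2 * 2 ^ n) ≤ 1 / N3 := by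
      rw [div_le_div_iff₀ (by positivity) hN0, one_mul, mul_comm]
      exact hB
    have h2 : (2 : ℝ) ^ (B + 1) * (2 / (η * γ ^ 2 * 2 ^ n)) = 4 * (2 ^ B / (η * γ ^ 2 * 2 ^ n)) := by
      rw [pow_succ]
      ring
    rw [h2]
    linarith
  -- fourth term
  have t4 : (2 : ℝ) ^ (B + 1) * (6 / γ ^ 2 * (T * pw l / 2 ^ (l / 2))) ≤ 1 / N3 := by
    have hT1 := time_lt hT
    have h4 : T * pw l * 2 ^ n * 16 ≤ 2 ^ (l / 2) := by
      have h5 : T * pw l * 2 ^ n * 16 ≤ 2 ^ (l / 16 + 1) * 2 ^ (l / 6) * 2 ^ n * 2 ^ 4 := by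
        unfold pw
        gcongr
        norm_num
      have h6 : 2 ^ (l / 16 + 1) * 2 ^ (l / 6) * 2 ^ n * 2 ^ 4 = 2 ^ (l / 16 + 1 + l / 6 + n + 4) := by
        rw [← pow_add, ← pow_add, ← pow_add]
      rw [h6] at h5
      exact h5.trans (Nat.pow_le_pow_right (by norm_num) (by omega))
    have h5 : (T : ℝ) * pw l * 2 ^ n * 16 ≤ 2 ^ (l / 2) := by exact_mod_cast h4
    have h6 : (T : ℝ) * pw l / 2 ^ (l / 2) ≤ 1 / (2 ^ n * 16) := by
      rw [div_le_div_iff₀ (by positivity) (by positivity), one_mul]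
      linarith
    have h7 : (2 : ℝ) ^ B / γ ^ 2 ≤ 2 ^ n / N3 := by
      rw [div_le_div_iff₀ hγ2 hN0]
      have h8 : η * γ ^ 2 * 2 ^ n ≤ 2 ^ n * γ ^ 2 := by
        have : η * (γ ^ 2 * 2 ^ n) ≤ 1 * (γ ^ 2 * 2 ^ n) :=
          mul_le_mul_of_nonneg_right (by linarith) (by positivity)
        linarith
      linarith
    calc (2 : ℝ) ^ (B + 1) * (6 / γ ^ 2 * (T * pw l / 2 ^ (l / 2)))
        = 12 * ((2 ^ B / γ ^ 2) * (T * pw l / 2 ^ (l / 2))) := by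
          rw [pow_succ]
          ring
      _ ≤ 12 * ((2 ^ n / N3) * (1 / (2 ^ n * 16))) := by
          refine mul_le_mul_of_nonneg_left ?_ (by norm_num)
          exact mul_le_mul h7 h6 (by positivity) (by positivity)
      _ = 3 / 4 * (1 / N3) := by
          field_simp
          norm_num
      _ ≤ 1 / N3 := by
          have : 0 < 1 / N3 := by positivity
          linarith
  have hsum : bndN k n l T B η γ = 2 ^ (B + 1) * (2 ^ n * 2 ^ (T + 1) * (2 ^ (T + 1) *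
      errD (Rw n l) (Yq l) (2 ^ (T + 1)) (pw l) (2 ^ (l - n)) (pq l) k)) +
      2 ^ (B + 1) * (2 ^ n * 2 ^ (l / 2) * (1 - pq l) ^ 2 ^ (l / 2)) +
      2 ^ (B + 1) * (2 / (η * γ ^ 2 * 2 ^ n)) +
      2 ^ (B + 1) * (6 / γ ^ 2 * (T * pw l / 2 ^ (l / 2))) := by
    unfold bndN bd0
    ring
  have h8 : 8 / N3 = 8 * (1 / N3) := by ring
  have h9 : 0 < 1 / N3 := by positivity
  rw [hsum, h8]
  linarith

end Pool.Agent.H35.NE
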